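import Pool.Agent.helper54.UG.Spec

/-!
# ug, row EXI: integral exponentials
-/

set_option autoImplicit false

namespace Pool.Agent.UG

open Matrix Pool.Agent.H48SL

/-- the integral matrix of `exp ((N K!) X)`, `N X` integral, `X ^ K = 0` -/
theorem EXI_int {n : ℕ} (X : MQ n) (Y : Matrix (Fin n) (Fin n) ℤ) (N K : ℕ)
    (hY : (Int.castRingHom ℚ).mapMatrix Y = (N : ℚ) • X) (hK : X ^ K = 0) :
    ∃ G : Matrix (Fin n) (Fin n) ℤ, (Int.castRingHom ℚ).mapMatrix G
      = IsNilpotent.exp (((N * K.factorial : ℕ) : ℚ) • X) := by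
  refine ⟨∑ i ∈ Finset.range K, ((K.factorial ^ i / i.factorial : ℕ) : ℤ) • Y ^ i, ?_⟩
  have h0 : (((N * K.factorial : ℕ) : ℚ) • X) ^ K = 0 := by
    rw [smul_pow, hK, smul_zero]
  rw [IsNilpotent.exp_eq_sum h0, map_sum]
  refine Finset.sum_congr rfl fun i hi => ?_
  have hi' : i < K := Finset.mem_range.1 hi
  have hdvd : i.factorial ∣ K.factorial ^ i := by
    rcases Nat.eq_zero_or_pos i with h | h
    · subst h; simp
    · exact (Nat.factorial_dvd_factorial hi'.le).trans (dvd_pow_self _ h.ne')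
  have hne : (i.factorial : ℚ) ≠ 0 := by exact_mod_cast i.factorial_ne_zero
  rw [map_zsmul, map_pow, hY, smul_pow, smul_pow, ← Int.cast_smul_eq_zsmul ℚ, smul_smul, smul_smul]
  congr 1
  rw [Int.cast_natCast, Nat.cast_div hdvd hne]
  push_cast
  rw [mul_pow, div_eq_mul_inv]
  ring

theorem EXI_den {n : ℕ} (X : MQ n) : ∃ (N : ℕ) (Y : Matrix (Fin n) (Fin n) ℤ), 1 ≤ N ∧
    (Int.castRingHom ℚ).mapMatrix Y = (N : ℚ) • X := by
  obtain ⟨N, w, hN, hw⟩ := clear_denom (fun x : Fin n × Fin n => X x.1 x.2)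
  have h1 : ∀ i j, ((w (i, j) : ℤ) : ℚ) = N * X i j := by
    intro i j
    have h2 := congrFun hw (i, j)
    simpa [castV] using h2
  refine ⟨N.natAbs, Matrix.of (fun i j => N.sign * w (i, j)), Nat.one_le_iff_ne_zero.2 ?_, ?_⟩
  · exact Int.natAbs_ne_zero.2 hN
  · ext i j
    show ((N.sign * w (i, j) : ℤ) : ℚ) = (N.natAbs : ℚ) * X i j
    rw [Int.cast_mul, h1, ← mul_assoc, ← Int.cast_mul, Int.sign_mul_self_eq_abs,
      Int.abs_eq_natAbs, Int.cast_natCast]

theorem EXI (hEXJ : EXJ_stmt) : EXI_stmt := by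
  intro n X hX
  have _ := hEXJ
  obtain ⟨K, hK⟩ := hX
  obtain ⟨N, Y, hN, hY⟩ := EXI_den X
  have hK' : (-X) ^ K = 0 := by rw [neg_pow, hK, mul_zero]
  have hY' : (Int.castRingHom ℚ).mapMatrix (-Y) = (N : ℚ) • (-X) := by
    rw [map_neg, hY, smul_neg]
  obtain ⟨G, hG⟩ := EXI_int X Y N K hY hK
  obtain ⟨G', hG'⟩ := EXI_int (-X) (-Y) N K hY' hK'
  set k : ℕ := N * K.factorial with hk
  have hk1 : 1 ≤ k := Nat.mul_pos hN K.factorial_pos
  have hnil : IsNilpotent ((k : ℚ) • X) := ⟨K, by rw [smul_pow, hK, smul_zero]⟩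
  have hnil' : IsNilpotent ((k : ℚ) • (-X)) := ⟨K, by rw [smul_pow, hK', smul_zero]⟩
  have hcomm : Commute ((k : ℚ) • X) ((k : ℚ) • (-X)) := by
    rw [smul_neg]
    exact (Commute.refl _).neg_right
  have hinj : Function.Injective ((Int.castRingHom ℚ).mapMatrix :
      Matrix (Fin n) (Fin n) ℤ → Matrix (Fin n) (Fin n) ℚ) := by
    intro A B h
    ext i j
    have h1 : ((A i j : ℤ) : ℚ) = ((B i j : ℤ) : ℚ) := congrFun (congrFun h i) j
    exact_mod_cast h1
  have h1 : G * G' = 1 := by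
    apply hinj
    rw [map_mul, map_one, hG, hG', ← IsNilpotent.exp_add_of_commute hcomm hnil hnil', smul_neg,
      add_neg_cancel, IsNilpotent.exp_zero]
  have h2 : G.det * G'.det = 1 := by rw [← Matrix.det_mul, h1, Matrix.det_one]
  have h3 : (G * G).det = 1 := by
    rw [Matrix.det_mul]
    exact Int.isUnit_mul_self (IsUnit.of_mul_eq_one _ h2)
  refine ⟨k + k, by omega, ⟨G * G, h3⟩, ?_⟩
  show (Int.castRingHom ℚ).mapMatrix (G * G) = _
  rw [map_mul, hG, ← IsNilpotent.exp_add_of_commute (Commute.refl _) hnil hnil, ← add_smul,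
    ← Nat.cast_add]

end Pool.Agent.UG
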